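import Mathlib
import Pool.Agent.H735MQ.Large

set_option autoImplicit false

namespace Pool.Agent.Results.MP_ecd12e_nt.NoLargeValuesTwists

/-- For every `A ≥ 0`, `σ > 1/2` and `B > 0`: for an arbitrary coefficient sequence `|b_n| ≤ 1` and
all characters `χ` modulo a prime `r > (2N)^k`, except `K r N^(-B)` of them, the twisted Dirichlet
polynomial with coefficients `b_n χ(n)` has no value of size `> N^σ` at the integers of `[0,T]`,
`T ≤ N^A`. -/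
theorem result :
    ∀ A σ B : ℝ, 0 ≤ A → 1 / 2 < σ → 0 < B →
      ∃ K : ℝ, ∃ k : ℕ, ∀ N : ℕ, 1 ≤ N → ∀ T : ℝ, T ≤ (N : ℝ) ^ A →
        ∀ b : ℕ → ℂ, (∀ n, ‖b n‖ ≤ 1) → ∀ r : ℕ, r.Prime → (2 * N) ^ k < r →
          ({χ : DirichletCharacter ℂ r | ∃ t : ℤ, 0 ≤ (t : ℝ) ∧ (t : ℝ) ≤ T ∧
              (N : ℝ) ^ σ < ‖∑ n ∈ Finset.Icc N (2 * N), b n * χ (n : ZMod r)
                * Complex.exp ((((t : ℝ) * Real.log (n : ℝ) : ℝ) : ℂ) * Complex.I)‖}.ncard : ℝ)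
            ≤ K * r * (N : ℝ) ^ (-B) :=
  fun A σ B hA hσ hB => Pool.Agent.H735MQ.no_large_values A σ B hA hσ hB

end Pool.Agent.Results.MP_ecd12e_nt.NoLargeValuesTwists
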